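import Pool.Agent.Y744.NB.Stm

/-!
# Project NB (helper744, MP_360b3f_an): job FUB, time integrals of a solution (helper41)
-/

set_option autoImplicit false

open MeasureTheory Set Filter Topology Metric
open scoped ContDiff

namespace Pool.Agent.Y41.NB.FUB

open Pool.Agent.Y744.NB

lemma lap_cont {N : ℕ} (φ : E N → ℝ) (h : ContDiff ℝ ∞ φ) :
    Continuous (Laplacian.laplacian φ) := by
  rw [InnerProductSpace.laplacian_eq_iteratedFDeriv_stdOrthonormalBasis]
  refine continuous_finsetSum _ fun i _ => ?_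
  have h2 : Continuous fun x => iteratedFDeriv ℝ 2 φ x :=
    (contDiff_infty.mp h 2).continuous_iteratedFDeriv (m := 2) (by norm_num)
  exact (ContinuousMultilinearMap.apply ℝ (fun _ : Fin 2 => E N) ℝ
    ![stdOrthonormalBasis ℝ (E N) i, stdOrthonormalBasis ℝ (E N) i]).continuous.comp h2

lemma lap_supp {N : ℕ} (φ : E N → ℝ) (h : HasCompactSupport φ) :
    HasCompactSupport (Laplacian.laplacian φ) := by
  rw [InnerProductSpace.laplacian_eq_iteratedFDeriv_stdOrthonormalBasis]
  have h2 : HasCompactSupport (iteratedFDeriv ℝ 2 φ) := h.iteratedFDeriv 2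
  refine h2.mono ?_
  intro x hx
  simp only [Function.mem_support, ne_eq] at hx ⊢
  intro h0
  apply hx
  simp [h0]

section gen

variable {N : ℕ} {G : ℝ → E N → ℝ} {C τ : ℝ} {ψ : E N → ℝ}

lemma fub_int (hG : Measurable (Function.uncurry G)) (hC : ∀ s ∈ Icc 0 τ, ∀ x, |G s x| ≤ C)
    (hψ : Continuous ψ) (hs : HasCompactSupport ψ) :
    Integrable (fun p : ℝ × E N => G p.1 p.2 * ψ p.2)
      ((volume.restrict (Ioc 0 τ)).prod volume) := by
  have hψi : Integrable ψ := hψ.integrable_of_hasCompactSupport hs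
  have h1 : Integrable (fun p : ℝ × E N => (fun _ : ℝ => C) p.1 * (fun x => |ψ x|) p.2)
      ((volume.restrict (Ioc 0 τ)).prod volume) := by
    exact Integrable.mul_prod (μ := (volume : Measure ℝ).restrict (Ioc 0 τ)) (ν := (volume : Measure (E N)))
      (f := fun _ : ℝ => C) (g := fun x => |ψ x|) (integrable_const _) hψi.abs
  refine Integrable.mono' h1 ?_ ?_
  · have h2 : Measurable (fun p : ℝ × E N => G p.1 p.2 * ψ p.2) :=
      Measurable.mul hG (hψ.measurable.comp measurable_snd)
    exact h2.aestronglyMeasurable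
  · have : ((volume : Measure ℝ).restrict (Ioc 0 τ)).prod (volume : Measure (E N))
        = ((volume : Measure ℝ).prod (volume : Measure (E N))).restrict (Ioc 0 τ ×ˢ univ) := by
      rw [← Measure.prod_restrict, Measure.restrict_univ]
    rw [this]
    filter_upwards [ae_restrict_mem (measurableSet_Ioc.prod MeasurableSet.univ)] with p hp
    rw [Real.norm_eq_abs, abs_mul]
    exact mul_le_mul_of_nonneg_right (hC _ ⟨hp.1.1.le, hp.1.2⟩ _) (abs_nonneg _)

lemma fub_swap (hτ : 0 ≤ τ) (hG : Measurable (Function.uncurry G))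
    (hC : ∀ s ∈ Icc 0 τ, ∀ x, |G s x| ≤ C)
    (hψ : Continuous ψ) (hs : HasCompactSupport ψ) :
    ∫ s in (0:ℝ)..τ, ∫ x, G s x * ψ x = ∫ x, (∫ s in (0:ℝ)..τ, G s x) * ψ x := by
  have h1 := integral_integral_swap (f := fun (s : ℝ) (x : E N) => G s x * ψ x)
    (fub_int hG hC hψ hs)
  rw [intervalIntegral.integral_of_le hτ, h1]
  congr 1
  ext x
  rw [intervalIntegral.integral_of_le hτ, integral_mul_const]

lemma fub_time (hτ : 0 ≤ τ) (hG : Measurable (Function.uncurry G))
    (hC : ∀ s ∈ Icc 0 τ, ∀ x, |G s x| ≤ C)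
    (hψ : Continuous ψ) (hs : HasCompactSupport ψ) :
    IntervalIntegrable (fun s => ∫ x, G s x * ψ x) volume 0 τ := by
  rw [intervalIntegrable_iff_integrableOn_Ioc_of_le hτ]
  exact (fub_int hG hC hψ hs).integral_prod_left

lemma fub_space (hτ : 0 ≤ τ) (hG : Measurable (Function.uncurry G))
    (hC : ∀ s ∈ Icc 0 τ, ∀ x, |G s x| ≤ C)
    (hψ : Continuous ψ) (hs : HasCompactSupport ψ) :
    Integrable (fun x => (∫ s in (0:ℝ)..τ, G s x) * ψ x) := by
  have h1 := (fub_int hG hC hψ hs).integral_prod_right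
  refine h1.congr (Eventually.of_forall fun x => ?_)
  simp only
  rw [intervalIntegral.integral_of_le hτ, integral_mul_const]

lemma sec_int (hG : Measurable (Function.uncurry G))
    (hC : ∀ s ∈ Icc 0 τ, ∀ x, |G s x| ≤ C)
    (hψ : Continuous ψ) (hs : HasCompactSupport ψ) {s : ℝ} (hs' : s ∈ Icc 0 τ) :
    Integrable (fun x => G s x * ψ x) := by
  have hψi : Integrable ψ := hψ.integrable_of_hasCompactSupport hs
  refine Integrable.mono' (hψi.abs.const_mul C) ?_ ?_
  · exact ((hG.comp measurable_prodMk_left).mul hψ.measurable).aestronglyMeasurable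
  · refine Eventually.of_forall fun x => ?_
    rw [Real.norm_eq_abs, abs_mul]
    exact mul_le_mul_of_nonneg_right (hC _ hs' _) (abs_nonneg _)

lemma meas_time (hτ : 0 ≤ τ) (hG : Measurable (Function.uncurry G)) :
    Measurable (fun x => ∫ s in (0:ℝ)..τ, G s x) := by
  have h1 : StronglyMeasurable (fun x : E N => ∫ s, G s x ∂(volume.restrict (Ioc 0 τ))) := by
    have h2 : StronglyMeasurable (Function.uncurry fun (x : E N) (s : ℝ) => G s x) :=
      (hG.comp measurable_swap).stronglyMeasurable
    exact h2.integral_prod_right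
  have h3 : (fun x : E N => ∫ s in (0:ℝ)..τ, G s x)
      = fun x : E N => ∫ s, G s x ∂(volume.restrict (Ioc 0 τ)) := by
    ext x
    rw [intervalIntegral.integral_of_le hτ]
  rw [h3]
  exact h1.measurable

end gen

theorem t (h0 : S_LAP0) : S_FUB := by
  intro N K f u₀ T M τ u v hf hf0 hS hτ hτT
  obtain ⟨C, hC⟩ := (isCompact_Icc (a := (0:ℝ)) (b := M)).exists_bound_of_continuousOn
    hf.continuousOn
  have hsub : ∀ s ∈ Icc 0 τ, s ∈ Icc 0 T := fun s hs => ⟨hs.1, hs.2.trans hτT⟩
  have hfb : ∀ s ∈ Icc 0 τ, ∀ x, f (u s x) ≤ |C| := by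
    intro s hs x
    have := hC (u s x) ⟨hS.u_nonneg s (hsub s hs) x, hS.u_le s (hsub s hs) x⟩
    rw [Real.norm_eq_abs] at this
    exact (le_abs_self _).trans (this.trans (le_abs_self _))
  -- the four functions
  have mv : Measurable (Function.uncurry v) := hS.measurable_v
  have mv1 : Measurable (Function.uncurry fun s x => 1 - v s x) :=
    measurable_const.sub mv
  have mvf : Measurable (Function.uncurry fun s x => v s x * f (u s x)) :=
    mv.mul (hf.measurable.comp hS.measurable_u)
  have bv : ∀ s ∈ Icc 0 τ, ∀ x, |v s x| ≤ 1 := by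
    intro s hs x
    have := hS.v_mem s (hsub s hs) x
    rw [abs_le]; constructor <;> linarith [this.1, this.2]
  have bv1 : ∀ s ∈ Icc 0 τ, ∀ x, |1 - v s x| ≤ 1 := by
    intro s hs x
    have := hS.v_mem s (hsub s hs) x
    rw [abs_le]; constructor <;> linarith [this.1, this.2]
  have bvf0 : ∀ s ∈ Icc 0 τ, ∀ x, 0 ≤ v s x * f (u s x) := by
    intro s hs x
    exact mul_nonneg (hS.v_mem s (hsub s hs) x).1 (hf0 _)
  have bvf : ∀ s ∈ Icc 0 τ, ∀ x, |v s x * f (u s x)| ≤ |C| := by
    intro s hs x
    rw [abs_of_nonneg (bvf0 s hs x)]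
    calc v s x * f (u s x) ≤ 1 * f (u s x) :=
          mul_le_mul_of_nonneg_right (hS.v_mem s (hsub s hs) x).2 (hf0 _)
      _ ≤ |C| := by rw [one_mul]; exact hfb s hs x
  have mem1 : τ ∈ Icc 0 τ := ⟨hτ.le, le_rfl⟩
  refine ⟨τ * |C|, fun x => ∫ s in (0:ℝ)..τ, (1 - v s x),
    fun x => ∫ s in (0:ℝ)..τ, v s x * f (u s x), fun x => 1 - v τ x,
    meas_time hτ.le mv1, meas_time hτ.le mvf, measurable_const.sub (mv.comp measurable_prodMk_left),
    fun x => rfl, fun x => rfl, ?_, ?_, ?_, ?_, ?_⟩
  · intro x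
    refine ⟨intervalIntegral.integral_nonneg hτ.le fun s hs => ?_, ?_⟩
    · linarith [(hS.v_mem s (hsub s hs) x).2]
    · have h1 := intervalIntegral.norm_integral_le_of_norm_le_const (a := 0) (b := τ)
        (f := fun s => 1 - v s x) (C := 1) (fun s hs => by
          rw [uIoc_of_le hτ.le] at hs
          exact bv1 s ⟨hs.1.le, hs.2⟩ x)
      rw [sub_zero, abs_of_pos hτ, one_mul] at h1
      exact (le_abs_self _).trans h1
  · intro x
    refine ⟨intervalIntegral.integral_nonneg hτ.le fun s hs => bvf0 s hs x, ?_⟩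
    have h1 := intervalIntegral.norm_integral_le_of_norm_le_const (a := 0) (b := τ)
        (f := fun s => v s x * f (u s x)) (C := |C|) (fun s hs => by
          rw [uIoc_of_le hτ.le] at hs
          exact bvf s ⟨hs.1.le, hs.2⟩ x)
    rw [sub_zero, abs_of_pos hτ, mul_comm] at h1
    exact (le_abs_self _).trans h1
  · intro x
    have := hS.v_mem τ (hsub τ mem1) x
    constructor <;> linarith [this.1, this.2]
  · intro φ hφ hφs
    have cφ : Continuous φ := hφ.continuous
    have cL := lap_cont φ hφ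
    have sL := lap_supp φ hφs
    have iφ : Integrable φ := cφ.integrable_of_hasCompactSupport hφs
    have iL : Integrable (Laplacian.laplacian φ) := cL.integrable_of_hasCompactSupport sL
    have e1 := hS.eq_v φ hφ hφs τ (hsub τ mem1)
    -- split
    have e2 : ∫ s in (0:ℝ)..τ, ∫ x, (v s x * Laplacian.laplacian φ x - v s x * f (u s x) * φ x)
        = (∫ s in (0:ℝ)..τ, ∫ x, v s x * Laplacian.laplacian φ x)
          - ∫ s in (0:ℝ)..τ, ∫ x, v s x * f (u s x) * φ x := by
      rw [← intervalIntegral.integral_sub (fub_time (G := v) hτ.le mv bv cL sL)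
        (fub_time (G := fun s x => v s x * f (u s x)) hτ.le mvf bvf cφ hφs)]
      refine intervalIntegral.integral_congr fun s hs => ?_
      rw [uIcc_of_le hτ.le] at hs
      exact integral_sub (sec_int (G := v) mv bv cL sL hs)
        (sec_int (G := fun s x => v s x * f (u s x)) mvf bvf cφ hφs hs)
    have e3 : ∫ s in (0:ℝ)..τ, ∫ x, (1 - v s x) * Laplacian.laplacian φ x
        = - ∫ s in (0:ℝ)..τ, ∫ x, v s x * Laplacian.laplacian φ x := by
      rw [← intervalIntegral.integral_neg]
      refine intervalIntegral.integral_congr fun s hs => ?_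
      rw [uIcc_of_le hτ.le] at hs
      have := integral_sub iL (sec_int (G := v) mv bv cL sL hs)
      rw [h0 N φ hφ hφs, zero_sub] at this
      rw [← this]
      congr 1
      ext x
      ring
    have e4 := fub_swap (G := fun s x => 1 - v s x) hτ.le mv1 bv1 cL sL
    have e5 := fub_swap (G := fun s x => v s x * f (u s x)) hτ.le mvf bvf cφ hφs
    have e6 : ∫ x, (1 - v τ x) * φ x = (∫ x, φ x) - ∫ x, v τ x * φ x := by
      rw [← integral_sub iφ (sec_int (G := v) mv bv cφ hφs mem1)]
      congr 1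
      ext x
      ring
    rw [e6, e1, e2, ← e5, ← e4, e3]
    ring
  · intro φ hφ hφs hφ0
    have cφ : Continuous φ := hφ.continuous
    have cL := lap_cont φ hφ
    have sL := lap_supp φ hφs
    have iφ : Integrable φ := cφ.integrable_of_hasCompactSupport hφs
    have iL : Integrable (Laplacian.laplacian φ) := cL.integrable_of_hasCompactSupport sL
    have e4 := fub_swap (G := fun s x => 1 - v s x) hτ.le mv1 bv1 cφ hφs
    have e5 := fub_swap (G := fun s x => v s x * f (u s x)) hτ.le mvf bvf cφ hφs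
    rw [← e4]
    set Q : ℝ := (∫ x, (∫ s in (0:ℝ)..τ, v s x * f (u s x)) * φ x)
      + τ * ∫ x, |Laplacian.laplacian φ x| with hQ
    have key : ∀ t ∈ Icc 0 τ, ∫ x, (1 - v t x) * φ x ≤ Q := by
      intro t ht
      have e1 := hS.eq_v φ hφ hφs t (hsub t ht)
      have hsubt : ∀ s ∈ Icc 0 t, s ∈ Icc 0 τ := fun s hs => ⟨hs.1, hs.2.trans ht.2⟩
      have bvt : ∀ s ∈ Icc 0 t, ∀ x, |v s x| ≤ 1 := fun s hs => bv s (hsubt s hs)
      have bvft : ∀ s ∈ Icc 0 t, ∀ x, |v s x * f (u s x)| ≤ |C| := fun s hs => bvf s (hsubt s hs)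
      have e2 : ∫ s in (0:ℝ)..t, ∫ x, (v s x * Laplacian.laplacian φ x - v s x * f (u s x) * φ x)
          = (∫ s in (0:ℝ)..t, ∫ x, v s x * Laplacian.laplacian φ x)
            - ∫ s in (0:ℝ)..t, ∫ x, v s x * f (u s x) * φ x := by
        rw [← intervalIntegral.integral_sub (fub_time (G := v) ht.1 mv bvt cL sL)
          (fub_time (G := fun s x => v s x * f (u s x)) ht.1 mvf bvft cφ hφs)]
        refine intervalIntegral.integral_congr fun s hs => ?_
        rw [uIcc_of_le ht.1] at hs
        exact integral_sub (sec_int (G := v) mv bvt cL sL hs)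
          (sec_int (G := fun s x => v s x * f (u s x)) mvf bvft cφ hφs hs)
      have e6 : ∫ x, (1 - v t x) * φ x = (∫ x, φ x) - ∫ x, v t x * φ x := by
        rw [← integral_sub iφ (sec_int (G := v) mv bv cφ hφs ht)]
        congr 1
        ext x
        ring
      have e7 : ∫ s in (0:ℝ)..t, ∫ x, v s x * f (u s x) * φ x
          ≤ ∫ s in (0:ℝ)..τ, ∫ x, v s x * f (u s x) * φ x := by
        refine intervalIntegral.integral_mono_interval le_rfl ht.1 ht.2 ?_ ?_
        · filter_upwards [ae_restrict_mem measurableSet_Ioc] with s hs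
          exact integral_nonneg fun x => mul_nonneg (bvf0 s ⟨hs.1.le, hs.2⟩ x) (hφ0 x)
        · exact fub_time (G := fun s x => v s x * f (u s x)) hτ.le mvf bvf cφ hφs
      have e8 : |∫ s in (0:ℝ)..t, ∫ x, v s x * Laplacian.laplacian φ x|
          ≤ τ * ∫ x, |Laplacian.laplacian φ x| := by
        have hI0 : 0 ≤ ∫ x, |Laplacian.laplacian φ x| := integral_nonneg fun x => abs_nonneg _
        have h1 := intervalIntegral.norm_integral_le_of_norm_le_const (a := 0) (b := t)
          (f := fun s => ∫ x, v s x * Laplacian.laplacian φ x)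
          (C := ∫ x, |Laplacian.laplacian φ x|) (fun s hs => by
            rw [uIoc_of_le ht.1] at hs
            have hs' : s ∈ Icc 0 t := ⟨hs.1.le, hs.2⟩
            refine (norm_integral_le_integral_norm _).trans ?_
            refine integral_mono (sec_int (G := v) mv bvt cL sL hs').norm iL.abs fun x => ?_
            simp only [Real.norm_eq_abs]
            rw [abs_mul]
            calc |v s x| * |Laplacian.laplacian φ x| ≤ 1 * |Laplacian.laplacian φ x| :=
                  mul_le_mul_of_nonneg_right (bvt s hs' x) (abs_nonneg _)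
              _ = _ := one_mul _)
        rw [sub_zero, abs_of_nonneg ht.1, Real.norm_eq_abs] at h1
        refine h1.trans ?_
        rw [mul_comm]
        exact mul_le_mul_of_nonneg_right ht.2 hI0
      rw [e6, e1, e2, hQ, ← e5]
      have := neg_abs_le (∫ s in (0:ℝ)..t, ∫ x, v s x * Laplacian.laplacian φ x)
      linarith
    have hfin : ∫ s in (0:ℝ)..τ, ∫ x, (1 - v s x) * φ x ≤ ∫ s in (0:ℝ)..τ, Q := by
      refine intervalIntegral.integral_mono_on hτ.le ?_ (by simp) key
      exact fub_time (G := fun s x => 1 - v s x) hτ.le mv1 bv1 cφ hφs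
    rw [intervalIntegral.integral_const, smul_eq_mul, sub_zero] at hfin
    exact hfin

end Pool.Agent.Y41.NB.FUB
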