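import Pool.Agent.Y744.NB.Stm

/-!
# Project NB (helper744, MP_360b3f_an): job VOL, the integral of the test function (helper41)
-/

set_option autoImplicit false

open MeasureTheory Set Filter Topology Metric
open scoped ContDiff

namespace Pool.Agent.Y41.NB.VOL

open Pool.Agent.Y744.NB

lemma gw_nonneg (N : ℕ) {ε σ : ℝ} (hε : 0 < ε) (hσ : 0 ≤ σ) : 0 ≤ gw N ε σ :=
  Real.rpow_nonneg (by positivity) _

lemma gw_le (N : ℕ) {ε σ : ℝ} (hε : 0 < ε) (hσ : 0 ≤ σ) : gw N ε σ ≤ gw N ε 0 := by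
  unfold gw
  refine Real.rpow_le_rpow_of_nonpos (by positivity) (by linarith) ?_
  have : (0:ℝ) ≤ N := Nat.cast_nonneg N
  linarith

lemma gw_mul (N : ℕ) {ε σ : ℝ} (hε : 0 < ε) (hσ : 0 < σ) : gw N ε σ * (Real.sqrt σ) ^ N ≤ 1 := by
  have h1 : gw N ε σ ≤ σ ^ (-(N : ℝ) / 2) := by
    unfold gw
    refine Real.rpow_le_rpow_of_nonpos hσ (by nlinarith [sq_nonneg ε]) ?_
    have : (0:ℝ) ≤ N := Nat.cast_nonneg N
    linarith
  have h2 : (Real.sqrt σ) ^ N = σ ^ ((N : ℝ) / 2) := by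
    rw [Real.sqrt_eq_rpow, ← Real.rpow_natCast, ← Real.rpow_mul hσ.le]
    congr 1
    ring
  rw [h2]
  calc gw N ε σ * σ ^ ((N : ℝ) / 2) ≤ σ ^ (-(N : ℝ) / 2) * σ ^ ((N : ℝ) / 2) :=
        mul_le_mul_of_nonneg_right h1 (Real.rpow_nonneg hσ.le _)
    _ = 1 := by
        rw [← Real.rpow_add hσ]
        have : -(N : ℝ) / 2 + (N : ℝ) / 2 = 0 := by ring
        rw [this, Real.rpow_zero]

lemma gw_meas (N : ℕ) (ε : ℝ) : Measurable (gw N ε) := by
  unfold gw
  exact (measurable_id.add_const _).pow_const _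

/-- the layers -/
noncomputable def F (N : ℕ) (χ : ℝ → ℝ) (ε : ℝ) (y : E N) (σ : ℝ) : ℝ :=
  if ‖y‖ ^ 2 < σ then gw N ε σ * χ σ else 0

lemma F_meas (N : ℕ) (χ : ℝ → ℝ) (ε : ℝ) (hχ : Continuous χ) :
    Measurable (Function.uncurry (F N χ ε)) := by
  unfold F
  refine Measurable.ite ?_ ?_ measurable_const
  · exact measurableSet_lt (by fun_prop) measurable_snd
  · exact ((gw_meas N ε).comp measurable_snd).mul (hχ.measurable.comp measurable_snd)

lemma F_nonneg (N : ℕ) (χ : ℝ → ℝ) {ε : ℝ} (hε : 0 < ε) (hχ : ∀ s, χ s ∈ Icc (0:ℝ) 1) (y : E N)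
    (σ : ℝ) : 0 ≤ F N χ ε y σ := by
  unfold F
  split_ifs with h
  · exact mul_nonneg (gw_nonneg N hε ((sq_nonneg _).trans h.le)) (hχ σ).1
  · exact le_rfl

lemma Ps_eq (N : ℕ) (χ : ℝ → ℝ) {R ε : ℝ} (hε : 0 < ε) (hR : 0 < R)
    (hχ0 : ∀ s, R ≤ s → χ s = 0) (y : E N) :
    Ps N χ R ε (‖y‖ ^ 2) = ∫ σ in Ioc 0 R, F N χ ε y σ := by
  unfold Ps
  rcases le_total (‖y‖ ^ 2) R with h | h
  · rw [intervalIntegral.integral_of_le h]
    have h1 : (fun σ => F N χ ε y σ) = (Ioi (‖y‖ ^ 2)).indicator fun σ => gw N ε σ * χ σ := by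
      ext σ
      unfold F
      by_cases h2 : ‖y‖ ^ 2 < σ
      · rw [if_pos h2, indicator_of_mem (by exact h2)]
      · rw [if_neg h2, indicator_of_notMem (by exact h2)]
    rw [h1, setIntegral_indicator measurableSet_Ioi]
    congr 2
    ext σ
    simp only [mem_Ioc, mem_inter_iff, mem_Ioi]
    constructor
    · rintro ⟨h2, h3⟩
      exact ⟨⟨lt_of_le_of_lt (sq_nonneg _) h2, h3⟩, h2⟩
    · rintro ⟨⟨_, h3⟩, h2⟩
      exact ⟨h2, h3⟩
  · rw [intervalIntegral.integral_of_ge h]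
    have h1 : ∫ σ in Ioc R (‖y‖ ^ 2), gw N ε σ * χ σ = 0 := by
      refine setIntegral_eq_zero_of_forall_eq_zero fun σ hσ => ?_
      rw [hχ0 σ hσ.1.le, mul_zero]
    have h2 : ∫ σ in Ioc 0 R, F N χ ε y σ = 0 := by
      refine setIntegral_eq_zero_of_forall_eq_zero fun σ hσ => ?_
      unfold F
      rw [if_neg]
      exact not_lt.mpr (hσ.2.trans h)
    rw [h1, h2, neg_zero]

theorem t : S_VOL := by
  intro N χ R ε hε hR hχc hχ hχ0
  have h1 : ∀ y : E N, Ps N χ R ε (‖y‖ ^ 2) = ∫ σ in Ioc 0 R, F N χ ε y σ :=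
    fun y => Ps_eq N χ hε hR hχ0 y
  simp_rw [h1]
  have hFi : Integrable (Function.uncurry (F N χ ε))
      ((volume : Measure (E N)).prod ((volume : Measure ℝ).restrict (Ioc 0 R))) := by
    have hb : Integrable (fun p : E N × ℝ =>
        (ball (0 : E N) (Real.sqrt R)).indicator (fun _ => (1:ℝ)) p.1
          * (fun _ : ℝ => gw N ε 0) p.2)
        ((volume : Measure (E N)).prod ((volume : Measure ℝ).restrict (Ioc 0 R))) := by
      refine Integrable.mul_prod (μ := (volume : Measure (E N)))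
        (ν := (volume : Measure ℝ).restrict (Ioc 0 R))
        (f := (ball (0 : E N) (Real.sqrt R)).indicator (fun _ => (1:ℝ)))
        (g := fun _ : ℝ => gw N ε 0) ?_ (integrable_const _)
      rw [integrable_indicator_iff measurableSet_ball]
      exact integrableOn_const measure_ball_lt_top.ne
    refine Integrable.mono' hb (F_meas N χ ε hχc).aestronglyMeasurable ?_
    have hm : ((volume : Measure (E N)).prod ((volume : Measure ℝ).restrict (Ioc 0 R)))
        = ((volume : Measure (E N)).prod (volume : Measure ℝ)).restrict (univ ×ˢ Ioc 0 R) := by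
      rw [← Measure.prod_restrict, Measure.restrict_univ]
    rw [hm]
    filter_upwards [ae_restrict_mem (MeasurableSet.univ.prod measurableSet_Ioc)] with p hp
    have hp2 : p.2 ∈ Ioc 0 R := hp.2
    show ‖F N χ ε p.1 p.2‖ ≤ (ball (0 : E N) √R).indicator (fun _ => (1:ℝ)) p.1 * gw N ε 0
    rw [Real.norm_of_nonneg (F_nonneg N χ hε hχ _ _)]
    unfold F
    split_ifs with h
    · have h3 : p.1 ∈ ball (0 : E N) (Real.sqrt R) := by
        rw [mem_ball_zero_iff]
        refine Real.lt_sqrt_of_sq_lt (h.trans_le hp2.2)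
      rw [indicator_of_mem h3, one_mul]
      calc gw N ε p.2 * χ p.2 ≤ gw N ε p.2 * 1 :=
            mul_le_mul_of_nonneg_left (hχ _).2 (gw_nonneg N hε hp2.1.le)
        _ ≤ gw N ε 0 := by rw [mul_one]; exact gw_le N hε hp2.1.le
    · refine mul_nonneg (indicator_nonneg (fun _ _ => zero_le_one) _) (gw_nonneg N hε le_rfl)
  rw [integral_integral_swap hFi]
  have h2 : ∀ σ ∈ Ioc 0 R, ‖∫ y, F N χ ε y σ‖ ≤ volume.real (ball (0 : E N) 1) := by
    intro σ hσ
    have h3 : (fun y : E N => F N χ ε y σ)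
        = (ball (0 : E N) (Real.sqrt σ)).indicator fun _ => gw N ε σ * χ σ := by
      ext y
      have : ‖y‖ ^ 2 < σ ↔ y ∈ ball (0 : E N) (Real.sqrt σ) := by
        rw [mem_ball_zero_iff]
        exact (Real.lt_sqrt (norm_nonneg y)).symm
      unfold F
      by_cases h4 : ‖y‖ ^ 2 < σ
      · rw [if_pos h4, indicator_of_mem (this.mp h4)]
      · rw [if_neg h4, indicator_of_notMem (fun h5 => h4 (this.mpr h5))]
    rw [h3, integral_indicator_const _ measurableSet_ball, smul_eq_mul]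
    have h5 : volume.real (ball (0 : E N) (Real.sqrt σ))
        = (Real.sqrt σ) ^ N * volume.real (ball (0 : E N) 1) := by
      rw [Measure.real, Measure.addHaar_ball_of_pos _ _ (Real.sqrt_pos.mpr hσ.1), finrank_euclideanSpace,
        Fintype.card_fin, ENNReal.toReal_mul, ENNReal.toReal_ofReal (by positivity)]
      rfl
    have h6 : 0 ≤ volume.real (ball (0 : E N) 1) := measureReal_nonneg
    rw [h5, Real.norm_of_nonneg (by
      have := gw_nonneg N hε hσ.1.le
      have := (hχ σ).1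
      positivity)]
    calc (Real.sqrt σ) ^ N * volume.real (ball (0 : E N) 1) * (gw N ε σ * χ σ)
        = (gw N ε σ * (Real.sqrt σ) ^ N) * χ σ * volume.real (ball (0 : E N) 1) := by ring
      _ ≤ 1 * 1 * volume.real (ball (0 : E N) 1) := by
          refine mul_le_mul_of_nonneg_right ?_ h6
          exact mul_le_mul (gw_mul N hε hσ.1) (hχ σ).2 (hχ σ).1 zero_le_one
      _ = _ := by ring
  have h7 := norm_setIntegral_le_of_norm_le_const (μ := (volume : Measure ℝ)) (s := Ioc 0 R)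
    (f := fun σ => ∫ y, F N χ ε y σ) (C := volume.real (ball (0 : E N) 1)) measure_Ioc_lt_top h2
  have h8 : (volume : Measure ℝ).real (Ioc 0 R) = R := by
    rw [Measure.real, Real.volume_Ioc, sub_zero, ENNReal.toReal_ofReal hR.le]
  rw [h8, mul_comm] at h7
  exact (le_abs_self _).trans h7

end Pool.Agent.Y41.NB.VOL
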